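import Pool.Agent.Helper2.SV.GoalsP

/-!
# Project SV, packet SUB: substitution preserves perfection
-/

set_option autoImplicit false

namespace Pool.Agent.Helper59.SV

open Pool.Agent.Helper2.SV

/-- A maximal clique size inside a set of vertices of a finite graph. -/
lemma exists_max_clique {V : Type} [Finite V] (G : SimpleGraph V) (Y : Set V) :
    ∃ K : Finset V, (↑K : Set V) ⊆ Y ∧ Clq G ↑K ∧ OmLe G Y K.card := by
  classical
  haveI := Fintype.ofFinite V
  let S : Finset (Finset V) :=
    Finset.univ.filter (fun K => (↑K : Set V) ⊆ Y ∧ Clq G ↑K)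
  have hS : S.Nonempty := by
    refine ⟨∅, ?_⟩
    simp only [S, Finset.mem_filter, Finset.mem_univ, true_and, Finset.coe_empty]
    exact ⟨Set.empty_subset _, clq_empty G⟩
  obtain ⟨K, hK, hmax⟩ := Finset.exists_max_image S Finset.card hS
  simp only [S, Finset.mem_filter, Finset.mem_univ, true_and] at hK hmax
  exact ⟨K, hK.1, hK.2, fun L hL hL' => hmax L ⟨hL, hL'⟩⟩

theorem goalSUB (hREP : Pool.Agent.Helper2.SV.G_REP) : Pool.Agent.Helper2.SV.G_SUB := by
  classical
  intro V _ G A H h hh hom hP1 hP2 X hXA n hn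
  by_cases hXH : ∃ z ∈ X, z ∈ H
  · obtain ⟨K0, hK0, hK0c, hK0m⟩ := exists_max_clique G (X ∩ H)
    set m := K0.card with hm
    have hmn : m ≤ n := hn K0 (fun z hz => (hK0 hz).1) hK0c
    obtain ⟨g, hg1, hg2⟩ := hP2 (X ∩ H) (fun z hz => ⟨hXA hz.1, hz.2⟩) m hK0m
    have key : ∀ K : Finset V,
        (↑K : Set V) ⊆ {y | y ∈ insert h (X \ H) ∧ G.Adj h y} → Clq G ↑K →
          K.card + m ≤ n := by
      intro K hK hKc
      have hK' : ∀ z ∈ K, z ∈ X ∧ z ∉ H ∧ G.Adj h z := by
        intro z hz
        obtain ⟨hz1, hz2⟩ := hK hz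
        rcases hz1 with rfl | hz1
        · exact absurd hz2 (G.loopless.irrefl _)
        · exact ⟨hz1.1, hz1.2, hz2⟩
      have hdisj : Disjoint K K0 := by
        rw [Finset.disjoint_left]
        intro z hz hz0
        exact (hK' z hz).2.1 (hK0 hz0).2
      rw [hm, ← Finset.card_union_of_disjoint hdisj]
      have hadj : ∀ z ∈ K, ∀ y ∈ K0, G.Adj z y := by
        intro z hz y hy
        obtain ⟨h1, h2, h3⟩ := hK' z hz
        rcases hom z (hXA h1) h2 with h4 | h4
        · exact h4 y (hK0 hy).2
        · exact absurd h3.symm (h4 h hh)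
      refine hn (K ∪ K0) ?_ ?_
      · intro z hz
        rw [Finset.coe_union] at hz
        rcases hz with hz | hz
        · exact (hK' z hz).1
        · exact (hK0 hz).1
      · intro z hz y hy hzy
        rw [Finset.coe_union] at hz hy
        rcases hz with hz | hz <;> rcases hy with hy | hy
        · exact hKc z hz y hy hzy
        · exact hadj z hz y hy
        · exact (hadj y hy z hz).symm
        · exact hK0c z hz y hy hzy
    obtain ⟨f, hf1, hf2, hf3⟩ := hREP V G (insert h (A \ H)) hP1 m n (insert h (X \ H)) h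
      (Set.insert_subset_insert (fun z hz => ⟨hXA hz.1, hz.2⟩)) (Set.mem_insert _ _)
      (hn.mono (by
        rintro z ⟨hz1, hz2⟩
        rcases hz1 with hz1 | hz1
        · exact absurd hz1 hz2
        · exact hz1.1)) key
    have hne : ∀ z, z ∉ H → z ≠ h := by
      rintro z hz rfl
      exact hz hh
    have hcross : ∀ z ∈ X, z ∉ H → ∀ y ∈ H, G.Adj z y → f z + m < n := by
      intro z hz hzH y hy hzy
      refine hf3 z (Or.inr ⟨hz, hzH⟩) ?_
      rcases hom z (hXA hz) hzH with h4 | h4
      · exact (h4 h hh).symm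
      · exact absurd hzy (h4 y hy)
    refine ⟨fun y => if y ∈ H then n - m + g y else f y, ?_, ?_⟩
    · intro y hy
      by_cases hyH : y ∈ H
      · simp only [hyH, if_true]
        have := hg1 y ⟨hy, hyH⟩
        omega
      · simp only [hyH, if_false]
        exact hf1 y (Or.inr ⟨hy, hyH⟩) (hne y hyH)
    · intro y hy z hz hyz
      by_cases hyH : y ∈ H <;> by_cases hzH : z ∈ H
      · simp only [hyH, hzH, if_true]
        have := hg2 y ⟨hy, hyH⟩ z ⟨hz, hzH⟩ hyz
        omega
      · simp only [hyH, hzH, if_true, if_false]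
        have := hcross z hz hzH y hyH hyz.symm
        omega
      · simp only [hyH, hzH, if_true, if_false]
        have := hcross y hy hyH z hzH hyz
        omega
      · simp only [hyH, hzH, if_false]
        exact hf2 y (Or.inr ⟨hy, hyH⟩) z (Or.inr ⟨hz, hzH⟩) (hne y hyH) (hne z hzH) hyz
  · refine hP1 X (fun z hz => Or.inr ⟨hXA hz, fun hzH => hXH ⟨z, hz, hzH⟩⟩) n hn

end Pool.Agent.Helper59.SV
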