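import Pool.Agent.Helper2.SV.GoalsP
import Pool.Agent.Helper2.SV.GoalsF

/-!
# Project SV, packet TB: a minimal fork-free counterexample is claw-free
-/

set_option autoImplicit false

namespace Pool.Agent.Helper59.SV

open Pool.Agent.Helper2.SV

theorem goalTB (hMI : G_MI) (hMC0 : G_MC0) (hPR : G_PR) (hS5 : G_S5) (hS6 : G_S6)
    (hS7A : G_S7A) (hS7B : G_S7B) : Pool.Agent.Helper2.SV.G_TB := by
  intro V _ G w hG hF v a b c hva hvb hvc hab hac hbc
  by_contra hcon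
  push Not at hcon
  obtain ⟨h1, h2, h3⟩ := hcon
  have hM := hMC0 V G w hG
  obtain ⟨hprime, hco⟩ := hPR V G w hG
  obtain ⟨Q, hQ, hQm⟩ := hMI.1 V G (Mn G v) (hM.nperf v)
  have hXp : Xp G Q = ∅ := by
    by_contra hne
    obtain ⟨V1, F1, F2, t, y, hJ⟩ := hS5 V G Q hprime hco hF hQm
      (Set.nonempty_iff_ne_empty.mpr hne)
    exact hS6 V G w hG V1 F1 F2 t y hJ
  have hvY : v ∈ Ys G Q := ⟨fun hv => (hQ hv).1 rfl, fun q hq => (hQ hq).2⟩
  obtain ⟨ha, hb, hc⟩ := hS7A V G Q hF hQm hXp v a b c hvY hva hvb hvc hab hac hbc h1 h2 h3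
  rcases hS7B V G Q hF hM.conn hQm hXp v a b c hvY ha hb hc hva hvb hvc hab hac hbc with
    h | h | h
  · exact h1 h
  · exact h2 h
  · exact h3 h

end Pool.Agent.Helper59.SV
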